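import Pool.Agent.H48.RF.All13
import Pool.Agent.H48.RG.CertG

set_option autoImplicit false

namespace Pool.Agent.H48.RF

open Pool.Agent.RZ Pool.Agent.H1.LD Pool.Agent.H1.CG Pool.Agent.H48.RG

variable {d : ℕ}

theorem cert13 : Cert 5 (WN (A1 c13 6 :: T13) : X d → X d → ℝ) :=
  certG (l := 5) (c := c13) (T := T13) c13_pos (ok13 d) (fun _ _ ha hb hab => hid13 ha hb hab)

end Pool.Agent.H48.RF
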