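import Pool.Agent.H48.RF.Dat

/-!
The kernel checks of the certificate in dimension 13.
-/

set_option autoImplicit false
set_option maxRecDepth 100000

namespace Pool.Agent.H48.RF

open Pool.Agent.H48.RG Pool.Agent.H48.RE

theorem okT13 : okT 10 (2 * K13) (A1 c13 6 :: T13) E13 = true := by
  decide +kernel

theorem hmT13 : hmT 10 17 E13 = true := by
  decide +kernel

end Pool.Agent.H48.RF
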