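import Pool.Agent.H48.RF.Ex

/-!
Kernel checks of the expansions.
-/

set_option autoImplicit false
set_option maxRecDepth 100000

namespace Pool.Agent.H48.RF

open Pool.Agent.H48.RG Pool.Agent.H48.RE

theorem s07 : sp 10 e07 p07 = true := by
  decide +kernel

theorem s08 : sp 10 e08 p08 = true := by
  decide +kernel

theorem s09 : sp 10 e09 p09 = true := by
  decide +kernel

theorem s10 : sp 10 e10 p10 = true := by
  decide +kernel

theorem s11 : sp 10 e11 p11 = true := by
  decide +kernel

theorem s12 : sp 10 e12 p12 = true := by
  decide +kernel

theorem s13 : sp 10 e13 p13 = true := by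
  decide +kernel

end Pool.Agent.H48.RF
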