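import Pool.Agent.H48.RF.Ex

/-!
Kernel checks of the expansions.
-/

set_option autoImplicit false
set_option maxRecDepth 100000

namespace Pool.Agent.H48.RF

open Pool.Agent.H48.RG Pool.Agent.H48.RE

theorem s14 : sp 10 e14 p14 = true := by
  decide +kernel

theorem s15 : sp 10 e15 p15 = true := by
  decide +kernel

theorem s16 : sp 10 e16 p16 = true := by
  decide +kernel

theorem s17 : sp 10 e17 p17 = true := by
  decide +kernel

theorem s18 : sp 10 e18 p18 = true := by
  decide +kernel

theorem s19 : sp 10 e19 p19 = true := by
  decide +kernel

theorem s20 : sp 10 e20 p20 = true := by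
  decide +kernel

end Pool.Agent.H48.RF
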