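import Pool.Agent.H48.RF.S0
import Pool.Agent.H48.RF.S1
import Pool.Agent.H48.RF.S2

/-!
The polynomial identity of the certificate in dimension 13.
-/

set_option autoImplicit false
set_option maxRecDepth 100000

namespace Pool.Agent.H48.RF

open Pool.Agent.H48.RG Pool.Agent.H48.RE

theorem fin13 : fn 10 3 K13 E13 P13 = true := by
  decide +kernel

theorem spa13 : SpA 10 E13 P13 := by
  unfold E13 P13
  exact .cons s00 (.cons s01 (.cons s02 (.cons s03 (.cons s04 (.cons s05 (.cons s06 (.cons s07 (.cons s08 (.cons s09 (.cons s10 (.cons s11 (.cons s12 (.cons s13 (.cons s14 (.cons s15 (.cons s16 (.cons s17 (.cons s18 (.cons s19 (.cons s20 (.nil)))))))))))))))))))))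

theorem ev13 (x y : ℝ) :
    rtot 10 x y 1 E13 + rtot 10 x 1 y E13 + rtot 10 1 y x E13 =
      K13 * ((x + y - 1) * (x ^ 3 * (y ^ 3 * 1 ^ 10)) + (x + 1 - y) * (x ^ 3 * (1 ^ 3 * y ^ 10)) +
        (1 + y - x) * (1 ^ 3 * (y ^ 3 * x ^ 10))) :=
  sp_ev spa13 fin13 x y

end Pool.Agent.H48.RF
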