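import Pool.Agent.H48.RF.OkT
import Pool.Agent.H48.RF.ChkA
import Pool.Agent.H48.RF.Fn

/-!
The certificate in dimension 13.
-/

set_option autoImplicit false

open MeasureTheory Filter Topology Metric Set
open scoped RealInnerProductSpace ENNReal

namespace Pool.Agent.H48.RF

open Pool.Agent.RZ Pool.Agent.H1.LD Pool.Agent.H48.R7 Pool.Agent.H48.RG Pool.Agent.H48.RE

theorem fit13 : ∀ t ∈ A1 c13 6 :: T13, Fit 10 t := by
  unfold Fit
  decide

theorem K13_ne : K13 ≠ 0 := by
  decide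

theorem hid13 {d : ℕ} {a b : X d} (ha : a ≠ 0) (hb : b ≠ 0) (hab : a ≠ b) :
    WN (A1 c13 6 :: T13) a b + WN (A1 c13 6 :: T13) (-a) (b - a) +
      WN (A1 c13 6 :: T13) (a - b) (-b) =
    LN 13 a b + LN 13 (-a) (b - a) + LN 13 (a - b) (-b) :=
  ident_ev (M := 10) (N := 13) (r := 3) (E := 17) (by norm_num) (by decide) fit13 K13_ne okT13
    hmT13 (by norm_num) (by norm_num) ev13 ha hb hab

end Pool.Agent.H48.RF
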