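import Pool.Agent.H48.RG.Defs

/-!
Reduction of the kernel condition and of the identity of a certificate to polynomial identities.
-/

set_option autoImplicit false

open MeasureTheory Filter Topology Metric Set
open scoped RealInnerProductSpace ENNReal

namespace Pool.Agent.H48.RF

open Pool.Agent.RZ Pool.Agent.H1.LD Pool.Agent.H48.R7 Pool.Agent.H48.RG

variable {d : ℕ}

/-- a list of monomials as a polynomial -/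
noncomputable def lp (L : List Mn) (C p q : ℝ) : ℝ :=
  (L.map fun μ => (μ.1 : ℝ) * C ^ μ.2.1 * p ^ μ.2.2.1 * q ^ μ.2.2.2).sum

/-- the pair kernel as a polynomial -/
noncomputable def mp (κ : ℝ) (α : Fin 6 → ℝ) (P R p : ℝ) : ℝ :=
  ∑ i ∈ Finset.range 5, ∑ j ∈ Finset.range 5,
    qg κ α (2 * (P + p)) i * qg κ α (2 * (R + p)) j * mo P R (P + p) (R + p) p i j

theorem isKer_of {k : ℕ} {L : List Mn} (α : Fin 6 → ℝ)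
    (h : ∀ P R p : ℝ, lp L (P + R) p (P * R) = mp k α P R p) : IsKer d k L := by
  refine ⟨α, fun a b t ht => ?_⟩
  have ht' : t ≠ 0 := ht.ne'
  have hA : ‖a‖ ^ 2 = ⟪a, a - b⟫ + ⟪a, b⟫ := by
    rw [inner_sub_right, real_inner_self_eq_norm_sq]; ring
  have hB : ‖b‖ ^ 2 = ⟪b, b - a⟫ + ⟪a, b⟫ := by
    rw [inner_sub_right, real_inner_self_eq_norm_sq, real_inner_comm]; ring
  have hC : ‖a - b‖ ^ 2 = ⟪a, a - b⟫ + ⟪b, b - a⟫ := by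
    rw [norm_sub_sq_real, hA, hB]
    rw [inner_sub_right, inner_sub_right, real_inner_comm b a]
    ring
  have h0 := h (⟪a, a - b⟫ / t ^ 2) (⟪b, b - a⟫ / t ^ 2) (⟪a, b⟫ / t ^ 2)
  have e1 : lv L a b t = lp L (⟪a, a - b⟫ / t ^ 2 + ⟪b, b - a⟫ / t ^ 2) (⟪a, b⟫ / t ^ 2)
      (⟪a, a - b⟫ / t ^ 2 * (⟪b, b - a⟫ / t ^ 2)) * Real.exp (-(‖a - b‖ ^ 2 / t ^ 2)) := by
    unfold lv lp
    congr 2
    refine List.map_congr_left fun μ _ => ?_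
    have e2 : ⟪a, a - b⟫ / t ^ 2 + ⟪b, b - a⟫ / t ^ 2 = ‖a - b‖ ^ 2 * t⁻¹ ^ 2 := by
      rw [hC, inv_pow]; field_simp
    have e3 : ⟪a, b⟫ / t ^ 2 = ⟪a, b⟫ * t⁻¹ ^ 2 := by rw [inv_pow]; field_simp
    have e4 : ⟪a, a - b⟫ / t ^ 2 * (⟪b, b - a⟫ / t ^ 2) = prg a b * t⁻¹ ^ 4 := by
      unfold prg
      rw [inv_pow]; field_simp
    rw [e2, e3, e4, mv, wt]
    ring
  have e5 : mg k α a b t = mp k α (⟪a, a - b⟫ / t ^ 2) (⟪b, b - a⟫ / t ^ 2) (⟪a, b⟫ / t ^ 2) *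
      Real.exp (-(‖a - b‖ ^ 2 / t ^ 2)) := by
    unfold mg mp
    rw [Finset.sum_mul]
    refine Finset.sum_congr rfl fun i _ => ?_
    rw [Finset.sum_mul]
    refine Finset.sum_congr rfl fun j _ => ?_
    have e6 : 2 / t ^ 2 * ‖a‖ ^ 2 = 2 * (⟪a, a - b⟫ / t ^ 2 + ⟪a, b⟫ / t ^ 2) := by
      rw [hA]; ring
    have e7 : 2 / t ^ 2 * ‖b‖ ^ 2 = 2 * (⟪b, b - a⟫ / t ^ 2 + ⟪a, b⟫ / t ^ 2) := by
      rw [hB]; ring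
    have e8 : ‖a‖ ^ 2 / t ^ 2 = ⟪a, a - b⟫ / t ^ 2 + ⟪a, b⟫ / t ^ 2 := by rw [hA]; ring
    have e9 : ‖b‖ ^ 2 / t ^ 2 = ⟪b, b - a⟫ / t ^ 2 + ⟪a, b⟫ / t ^ 2 := by rw [hB]; ring
    rw [pk, e6, e7, e8, e9]
    ring
  rw [e1, e5, h0]

/-- the time integral of a list as a function of the inverse square `w` -/
noncomputable def lr (k : ℕ) (L : List Mn) (C p q : ℝ) : ℝ :=
  (L.map fun μ => (μ.1 : ℝ) * C ^ μ.2.1 * p ^ μ.2.2.1 * q ^ μ.2.2.2 *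
    ((k + wt μ - 1).factorial / 2 * C⁻¹ ^ (k + wt μ))).sum

/-- the certificate as a function of `A, B, C` -/
noncomputable def WR (T : List At) (A B C : ℝ) : ℝ :=
  (T.map fun X => (X.c : ℝ) * (A⁻¹ ^ X.m * B⁻¹ ^ X.m * ((A + B - C) / 2) ^ X.j *
    lr X.k X.L C ((A + B - C) / 2) ((A + C - B) / 2 * ((B + C - A) / 2)))).sum

private theorem RFBase_pow (s : ℝ) (k : ℕ) : s⁻¹ ^ (2 * k) = (s ^ 2)⁻¹ ^ k := by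
  rw [← inv_pow, ← pow_mul]

theorem WN_eq (T : List At) (a b : X d) : WN T a b = WR T (‖a‖ ^ 2) (‖b‖ ^ 2) (‖a - b‖ ^ 2) := by
  have h3 : ‖a - b‖ ^ 2 = ‖a‖ ^ 2 + ‖b‖ ^ 2 - 2 * ⟪a, b⟫ := by rw [norm_sub_sq_real]; ring
  have h1 : ⟪a, a - b⟫ = ‖a‖ ^ 2 - ⟪a, b⟫ := by rw [inner_sub_right, real_inner_self_eq_norm_sq]
  have h2 : ⟪b, b - a⟫ = ‖b‖ ^ 2 - ⟪a, b⟫ := by
    rw [inner_sub_right, real_inner_self_eq_norm_sq, real_inner_comm]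
  have e1 : (‖a‖ ^ 2 + ‖b‖ ^ 2 - ‖a - b‖ ^ 2) / 2 = ⟪a, b⟫ := by linarith
  have e2 : (‖a‖ ^ 2 + ‖a - b‖ ^ 2 - ‖b‖ ^ 2) / 2 = ⟪a, a - b⟫ := by linarith
  have e3 : (‖b‖ ^ 2 + ‖a - b‖ ^ 2 - ‖a‖ ^ 2) / 2 = ⟪b, b - a⟫ := by linarith
  unfold WN WR
  congr 1
  refine List.map_congr_left fun X _ => ?_
  rw [e1, e2, e3, wa, RFBase_pow, RFBase_pow]
  congr 2
  unfold li lr
  congr 1
  refine List.map_congr_left fun μ _ => ?_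
  rw [mv, prg, RFBase_pow]

theorem hid_of {M : ℕ} {T : List At}
    (h : ∀ A B C : ℝ, A ≠ 0 → B ≠ 0 → C ≠ 0 →
      WR T A B C + WR T A C B + WR T C B A =
        A⁻¹ ^ (M + 1) * B⁻¹ ^ (M + 1) * ((A + B - C) / 2) +
        A⁻¹ ^ (M + 1) * C⁻¹ ^ (M + 1) * ((A + C - B) / 2) +
        C⁻¹ ^ (M + 1) * B⁻¹ ^ (M + 1) * ((C + B - A) / 2))
    (a b : X d) (ha : a ≠ 0) (hb : b ≠ 0) (hab : a ≠ b) :
    WN T a b + WN T (-a) (b - a) + WN T (a - b) (-b) =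
      LN (2 * M + 1) a b + LN (2 * M + 1) (-a) (b - a) + LN (2 * M + 1) (a - b) (-b) := by
  have hx : ‖a‖ ^ 2 ≠ 0 := pow_ne_zero 2 (norm_ne_zero_iff.2 ha)
  have hy : ‖b‖ ^ 2 ≠ 0 := pow_ne_zero 2 (norm_ne_zero_iff.2 hb)
  have hc : ‖a - b‖ ^ 2 ≠ 0 := pow_ne_zero 2 (norm_ne_zero_iff.2 (sub_ne_zero.2 hab))
  have h3 : ‖a - b‖ ^ 2 = ‖a‖ ^ 2 + ‖b‖ ^ 2 - 2 * ⟪a, b⟫ := by rw [norm_sub_sq_real]; ring
  have h1 : ⟪a, a - b⟫ = ‖a‖ ^ 2 - ⟪a, b⟫ := by rw [inner_sub_right, real_inner_self_eq_norm_sq]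
  have h2 : ⟪b, b - a⟫ = ‖b‖ ^ 2 - ⟪a, b⟫ := by
    rw [inner_sub_right, real_inner_self_eq_norm_sq, real_inner_comm]
  have e1 : (‖a‖ ^ 2 + ‖b‖ ^ 2 - ‖a - b‖ ^ 2) / 2 = ⟪a, b⟫ := by linarith
  have e2 : (‖a‖ ^ 2 + ‖a - b‖ ^ 2 - ‖b‖ ^ 2) / 2 = ⟪a, a - b⟫ := by linarith
  have e3 : (‖a - b‖ ^ 2 + ‖b‖ ^ 2 - ‖a‖ ^ 2) / 2 = ⟪b, b - a⟫ := by linarith
  have n1 : ‖b - a‖ = ‖a - b‖ := norm_sub_rev b a
  have n2 : -a - (b - a) = -b := by abel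
  have n4 : a - b - -b = a := by abel
  have q1 : ⟪-a, b - a⟫ = ⟪a, a - b⟫ := by
    rw [inner_neg_left, ← inner_neg_right, neg_sub]
  have q4 : ⟪a - b, -b⟫ = ⟪b, b - a⟫ := by
    rw [inner_neg_right, ← inner_neg_left, neg_sub, real_inner_comm]
  have w2 : WN T (-a) (b - a) = WR T (‖a‖ ^ 2) (‖a - b‖ ^ 2) (‖b‖ ^ 2) := by
    rw [WN_eq, n2, norm_neg, norm_neg, n1]
  have w3 : WN T (a - b) (-b) = WR T (‖a - b‖ ^ 2) (‖b‖ ^ 2) (‖a‖ ^ 2) := by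
    rw [WN_eq, n4, norm_neg]
  have e10 : ∀ s : ℝ, s⁻¹ ^ (2 * M + 1 + 1) = (s ^ 2)⁻¹ ^ (M + 1) := fun s => by
    rw [show 2 * M + 1 + 1 = 2 * (M + 1) by ring, RFBase_pow]
  rw [w2, w3, WN_eq, h _ _ _ hx hy hc, e1, e2, e3]
  unfold LN
  rw [norm_neg, norm_neg, n1, q1, q4, e10, e10, e10]

end Pool.Agent.H48.RF
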