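import Pool.Agent.H48.RF.Base

/-!
The Gaussian moments up to order four.
-/

set_option autoImplicit false

open MeasureTheory Filter Topology Metric Set
open scoped RealInnerProductSpace ENNReal

namespace Pool.Agent.H48.RF

open Pool.Agent.RZ Pool.Agent.H1.LD Pool.Agent.H48.R7 Pool.Agent.H48.RG

variable {d : ℕ}

theorem mo00 (P R p : ℝ) : mo P R (P + p) (R + p) p 0 0 =
    1 := by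
  simp [mo]

theorem mo01 (P R p : ℝ) : mo P R (P + p) (R + p) p 0 1 =
    R := by
  simp [mo]

theorem mo10 (P R p : ℝ) : mo P R (P + p) (R + p) p 1 0 =
    P := by
  simp [mo]

theorem mo02 (P R p : ℝ) : mo P R (P + p) (R + p) p 0 2 =
    R ^ 2 + 1 / 2 * R + 1 / 2 * p := by
  rw [mo, mo01, mo00]
  try push_cast
  ring

theorem mo11 (P R p : ℝ) : mo P R (P + p) (R + p) p 1 1 =
    P * R + 1 / 2 * p := by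
  rw [mo, mo01, mo00]
  try push_cast
  ring

theorem mo20 (P R p : ℝ) : mo P R (P + p) (R + p) p 2 0 =
    P ^ 2 + 1 / 2 * P + 1 / 2 * p := by
  rw [mo, mo10, mo00]
  try push_cast
  ring

theorem mo03 (P R p : ℝ) : mo P R (P + p) (R + p) p 0 3 =
    R ^ 3 + 3 / 2 * R ^ 2 + 3 / 2 * R * p := by
  rw [mo, mo02, mo01]
  try push_cast
  ring

theorem mo12 (P R p : ℝ) : mo P R (P + p) (R + p) p 1 2 =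
    P * R ^ 2 + 1 / 2 * P * R + 1 / 2 * P * p + R * p := by
  rw [mo, mo02, mo01]
  try push_cast
  ring

theorem mo21 (P R p : ℝ) : mo P R (P + p) (R + p) p 2 1 =
    P ^ 2 * R + 1 / 2 * P * R + P * p + 1 / 2 * R * p := by
  rw [mo, mo11, mo01, mo10]
  try push_cast
  ring

theorem mo30 (P R p : ℝ) : mo P R (P + p) (R + p) p 3 0 =
    P ^ 3 + 3 / 2 * P ^ 2 + 3 / 2 * P * p := by
  rw [mo, mo20, mo10]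
  try push_cast
  ring

theorem mo04 (P R p : ℝ) : mo P R (P + p) (R + p) p 0 4 =
    R ^ 4 + 3 * R ^ 3 + 3 * R ^ 2 * p + 3 / 4 * R ^ 2 + 3 / 2 * R * p + 3 / 4 * p ^ 2 := by
  rw [mo, mo03, mo02]
  try push_cast
  ring

theorem mo13 (P R p : ℝ) : mo P R (P + p) (R + p) p 1 3 =
    P * R ^ 3 + 3 / 2 * P * R ^ 2 + 3 / 2 * P * R * p + 3 / 2 * R ^ 2 * p + 3 / 4 * R * p
    + 3 / 4 * p ^ 2 := by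
  rw [mo, mo03, mo02]
  try push_cast
  ring

theorem mo22 (P R p : ℝ) : mo P R (P + p) (R + p) p 2 2 =
    P ^ 2 * R ^ 2 + 1 / 2 * P ^ 2 * R + 1 / 2 * P ^ 2 * p + 1 / 2 * P * R ^ 2 + 2 * P * R * p
    + 1 / 4 * P * R + 1 / 4 * P * p + 1 / 2 * R ^ 2 * p + 1 / 4 * R * p + 3 / 4 * p ^ 2 := by
  rw [mo, mo12, mo02, mo11]
  try push_cast
  ring

theorem mo31 (P R p : ℝ) : mo P R (P + p) (R + p) p 3 1 =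
    P ^ 3 * R + 3 / 2 * P ^ 2 * R + 3 / 2 * P ^ 2 * p + 3 / 2 * P * R * p + 3 / 4 * P * p
    + 3 / 4 * p ^ 2 := by
  rw [mo, mo21, mo11, mo20]
  try push_cast
  ring

theorem mo40 (P R p : ℝ) : mo P R (P + p) (R + p) p 4 0 =
    P ^ 4 + 3 * P ^ 3 + 3 * P ^ 2 * p + 3 / 4 * P ^ 2 + 3 / 2 * P * p + 3 / 4 * p ^ 2 := by
  rw [mo, mo30, mo20]
  try push_cast
  ring

theorem mo14 (P R p : ℝ) : mo P R (P + p) (R + p) p 1 4 =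
    P * R ^ 4 + 3 * P * R ^ 3 + 3 * P * R ^ 2 * p + 3 / 4 * P * R ^ 2 + 3 / 2 * P * R * p
    + 3 / 4 * P * p ^ 2 + 2 * R ^ 3 * p + 3 * R ^ 2 * p + 3 * R * p ^ 2 := by
  rw [mo, mo04, mo03]
  try push_cast
  ring

theorem mo23 (P R p : ℝ) : mo P R (P + p) (R + p) p 2 3 =
    P ^ 2 * R ^ 3 + 3 / 2 * P ^ 2 * R ^ 2 + 3 / 2 * P ^ 2 * R * p + 1 / 2 * P * R ^ 3
    + 3 * P * R ^ 2 * p + 3 / 4 * P * R ^ 2 + 9 / 4 * P * R * p + 3 / 2 * P * p ^ 2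
    + 1 / 2 * R ^ 3 * p + 3 / 4 * R ^ 2 * p + 9 / 4 * R * p ^ 2 := by
  rw [mo, mo13, mo03, mo12]
  try push_cast
  ring

theorem mo32 (P R p : ℝ) : mo P R (P + p) (R + p) p 3 2 =
    P ^ 3 * R ^ 2 + 1 / 2 * P ^ 3 * R + 1 / 2 * P ^ 3 * p + 3 / 2 * P ^ 2 * R ^ 2
    + 3 * P ^ 2 * R * p + 3 / 4 * P ^ 2 * R + 3 / 4 * P ^ 2 * p + 3 / 2 * P * R ^ 2 * p
    + 9 / 4 * P * R * p + 9 / 4 * P * p ^ 2 + 3 / 2 * R * p ^ 2 := by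
  rw [mo, mo22, mo12, mo21]
  try push_cast
  ring

theorem mo41 (P R p : ℝ) : mo P R (P + p) (R + p) p 4 1 =
    P ^ 4 * R + 3 * P ^ 3 * R + 2 * P ^ 3 * p + 3 * P ^ 2 * R * p + 3 / 4 * P ^ 2 * R
    + 3 * P ^ 2 * p + 3 / 2 * P * R * p + 3 * P * p ^ 2 + 3 / 4 * R * p ^ 2 := by
  rw [mo, mo31, mo21, mo30]
  try push_cast
  ring

theorem mo24 (P R p : ℝ) : mo P R (P + p) (R + p) p 2 4 =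
    P ^ 2 * R ^ 4 + 3 * P ^ 2 * R ^ 3 + 3 * P ^ 2 * R ^ 2 * p + 3 / 4 * P ^ 2 * R ^ 2
    + 3 / 2 * P ^ 2 * R * p + 3 / 4 * P ^ 2 * p ^ 2 + 1 / 2 * P * R ^ 4 + 4 * P * R ^ 3 * p
    + 3 / 2 * P * R ^ 3 + 15 / 2 * P * R ^ 2 * p + 3 / 8 * P * R ^ 2 + 6 * P * R * p ^ 2
    + 3 / 4 * P * R * p + 3 / 8 * P * p ^ 2 + 1 / 2 * R ^ 4 * p + 3 / 2 * R ^ 3 * p
    + 9 / 2 * R ^ 2 * p ^ 2 + 3 / 8 * R ^ 2 * p + 9 / 4 * R * p ^ 2 + 15 / 8 * p ^ 3 := by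
  rw [mo, mo14, mo04, mo13]
  try push_cast
  ring

theorem mo33 (P R p : ℝ) : mo P R (P + p) (R + p) p 3 3 =
    P ^ 3 * R ^ 3 + 3 / 2 * P ^ 3 * R ^ 2 + 3 / 2 * P ^ 3 * R * p + 3 / 2 * P ^ 2 * R ^ 3
    + 9 / 2 * P ^ 2 * R ^ 2 * p + 9 / 4 * P ^ 2 * R ^ 2 + 9 / 2 * P ^ 2 * R * p
    + 9 / 4 * P ^ 2 * p ^ 2 + 3 / 2 * P * R ^ 3 * p + 9 / 2 * P * R ^ 2 * p
    + 27 / 4 * P * R * p ^ 2 + 9 / 8 * P * R * p + 9 / 8 * P * p ^ 2 + 9 / 4 * R ^ 2 * p ^ 2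
    + 9 / 8 * R * p ^ 2 + 15 / 8 * p ^ 3 := by
  rw [mo, mo23, mo13, mo22]
  try push_cast
  ring

theorem mo42 (P R p : ℝ) : mo P R (P + p) (R + p) p 4 2 =
    P ^ 4 * R ^ 2 + 1 / 2 * P ^ 4 * R + 1 / 2 * P ^ 4 * p + 3 * P ^ 3 * R ^ 2
    + 4 * P ^ 3 * R * p + 3 / 2 * P ^ 3 * R + 3 / 2 * P ^ 3 * p + 3 * P ^ 2 * R ^ 2 * p
    + 3 / 4 * P ^ 2 * R ^ 2 + 15 / 2 * P ^ 2 * R * p + 3 / 8 * P ^ 2 * R + 9 / 2 * P ^ 2 * p ^ 2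
    + 3 / 8 * P ^ 2 * p + 3 / 2 * P * R ^ 2 * p + 6 * P * R * p ^ 2 + 3 / 4 * P * R * p
    + 9 / 4 * P * p ^ 2 + 3 / 4 * R ^ 2 * p ^ 2 + 3 / 8 * R * p ^ 2 + 15 / 8 * p ^ 3 := by
  rw [mo, mo32, mo22, mo31]
  try push_cast
  ring

theorem mo34 (P R p : ℝ) : mo P R (P + p) (R + p) p 3 4 =
    P ^ 3 * R ^ 4 + 3 * P ^ 3 * R ^ 3 + 3 * P ^ 3 * R ^ 2 * p + 3 / 4 * P ^ 3 * R ^ 2
    + 3 / 2 * P ^ 3 * R * p + 3 / 4 * P ^ 3 * p ^ 2 + 3 / 2 * P ^ 2 * R ^ 4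
    + 6 * P ^ 2 * R ^ 3 * p + 9 / 2 * P ^ 2 * R ^ 3 + 27 / 2 * P ^ 2 * R ^ 2 * p
    + 9 / 8 * P ^ 2 * R ^ 2 + 9 * P ^ 2 * R * p ^ 2 + 9 / 4 * P ^ 2 * R * p
    + 9 / 8 * P ^ 2 * p ^ 2 + 3 / 2 * P * R ^ 4 * p + 15 / 2 * P * R ^ 3 * p
    + 27 / 2 * P * R ^ 2 * p ^ 2 + 45 / 8 * P * R ^ 2 * p + 45 / 4 * P * R * p ^ 2
    + 45 / 8 * P * p ^ 3 + 3 * R ^ 3 * p ^ 2 + 9 / 2 * R ^ 2 * p ^ 2 + 15 / 2 * R * p ^ 3 := by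
  rw [mo, mo24, mo14, mo23]
  try push_cast
  ring

theorem mo43 (P R p : ℝ) : mo P R (P + p) (R + p) p 4 3 =
    P ^ 4 * R ^ 3 + 3 / 2 * P ^ 4 * R ^ 2 + 3 / 2 * P ^ 4 * R * p + 3 * P ^ 3 * R ^ 3
    + 6 * P ^ 3 * R ^ 2 * p + 9 / 2 * P ^ 3 * R ^ 2 + 15 / 2 * P ^ 3 * R * p + 3 * P ^ 3 * p ^ 2
    + 3 * P ^ 2 * R ^ 3 * p + 3 / 4 * P ^ 2 * R ^ 3 + 27 / 2 * P ^ 2 * R ^ 2 * p
    + 9 / 8 * P ^ 2 * R ^ 2 + 27 / 2 * P ^ 2 * R * p ^ 2 + 45 / 8 * P ^ 2 * R * p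
    + 9 / 2 * P ^ 2 * p ^ 2 + 3 / 2 * P * R ^ 3 * p + 9 * P * R ^ 2 * p ^ 2
    + 9 / 4 * P * R ^ 2 * p + 45 / 4 * P * R * p ^ 2 + 15 / 2 * P * p ^ 3
    + 3 / 4 * R ^ 3 * p ^ 2 + 9 / 8 * R ^ 2 * p ^ 2 + 45 / 8 * R * p ^ 3 := by
  rw [mo, mo33, mo23, mo32]
  try push_cast
  ring

theorem mo44 (P R p : ℝ) : mo P R (P + p) (R + p) p 4 4 =
    P ^ 4 * R ^ 4 + 3 * P ^ 4 * R ^ 3 + 3 * P ^ 4 * R ^ 2 * p + 3 / 4 * P ^ 4 * R ^ 2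
    + 3 / 2 * P ^ 4 * R * p + 3 / 4 * P ^ 4 * p ^ 2 + 3 * P ^ 3 * R ^ 4 + 8 * P ^ 3 * R ^ 3 * p
    + 9 * P ^ 3 * R ^ 3 + 21 * P ^ 3 * R ^ 2 * p + 9 / 4 * P ^ 3 * R ^ 2
    + 12 * P ^ 3 * R * p ^ 2 + 9 / 2 * P ^ 3 * R * p + 9 / 4 * P ^ 3 * p ^ 2
    + 3 * P ^ 2 * R ^ 4 * p + 3 / 4 * P ^ 2 * R ^ 4 + 21 * P ^ 2 * R ^ 3 * p
    + 9 / 4 * P ^ 2 * R ^ 3 + 27 * P ^ 2 * R ^ 2 * p ^ 2 + 45 / 2 * P ^ 2 * R ^ 2 * p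
    + 9 / 16 * P ^ 2 * R ^ 2 + 63 / 2 * P ^ 2 * R * p ^ 2 + 9 / 8 * P ^ 2 * R * p
    + 45 / 4 * P ^ 2 * p ^ 3 + 9 / 16 * P ^ 2 * p ^ 2 + 3 / 2 * P * R ^ 4 * p
    + 12 * P * R ^ 3 * p ^ 2 + 9 / 2 * P * R ^ 3 * p + 63 / 2 * P * R ^ 2 * p ^ 2
    + 9 / 8 * P * R ^ 2 * p + 30 * P * R * p ^ 3 + 27 / 4 * P * R * p ^ 2 + 45 / 8 * P * p ^ 3
    + 3 / 4 * R ^ 4 * p ^ 2 + 9 / 4 * R ^ 3 * p ^ 2 + 45 / 4 * R ^ 2 * p ^ 3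
    + 9 / 16 * R ^ 2 * p ^ 2 + 45 / 8 * R * p ^ 3 + 105 / 16 * p ^ 4 := by
  rw [mo, mo34, mo24, mo33]
  try push_cast
  ring

end Pool.Agent.H48.RF
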