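import Pool.Agent.H48.RF.OkBase
import Pool.Agent.H48.RF.T

/-!
The kernel lists are pair kernels.
-/

set_option autoImplicit false

open MeasureTheory Filter Topology Metric Set
open scoped RealInnerProductSpace ENNReal

namespace Pool.Agent.H48.RF

open Pool.Agent.RZ Pool.Agent.H1.LD Pool.Agent.H48.R7 Pool.Agent.H48.RG

theorem k00 (d : ℕ) : IsKer d 1 l00 := by
  refine isKer_of (![1024, -192, -448, -11, -4, 0] : Fin 6 → ℝ) fun P R p => ?_
  unfold lp mp
  simp only [l00, List.map_cons, List.map_nil, List.sum_cons, List.sum_nil,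
    Finset.sum_range_succ, Finset.sum_range_zero, qg, Matrix.cons_val]
  rw [mo00, mo01, mo02, mo03, mo04, mo10, mo11, mo12, mo13, mo14, mo20, mo21, mo22, mo23, mo24,
    mo30, mo31, mo32, mo33, mo34, mo40, mo41, mo42, mo43, mo44]
  push_cast
  ring

theorem k01 (d : ℕ) : IsKer d 2 l01 := by
  refine isKer_of (![0, 128, 52, -26, -56, -1] : Fin 6 → ℝ) fun P R p => ?_
  unfold lp mp
  simp only [l01, List.map_cons, List.map_nil, List.sum_cons, List.sum_nil,
    Finset.sum_range_succ, Finset.sum_range_zero, qg, Matrix.cons_val]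
  rw [mo00, mo01, mo02, mo03, mo04, mo10, mo11, mo12, mo13, mo14, mo20, mo21, mo22, mo23, mo24,
    mo30, mo31, mo32, mo33, mo34, mo40, mo41, mo42, mo43, mo44]
  push_cast
  ring

theorem k02 (d : ℕ) : IsKer d 2 l02 := by
  refine isKer_of (![2048, -768, -1536, -36, -3, 0] : Fin 6 → ℝ) fun P R p => ?_
  unfold lp mp
  simp only [l02, List.map_cons, List.map_nil, List.sum_cons, List.sum_nil,
    Finset.sum_range_succ, Finset.sum_range_zero, qg, Matrix.cons_val]
  rw [mo00, mo01, mo02, mo03, mo04, mo10, mo11, mo12, mo13, mo14, mo20, mo21, mo22, mo23, mo24,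
    mo30, mo31, mo32, mo33, mo34, mo40, mo41, mo42, mo43, mo44]
  push_cast
  ring

theorem k03 (d : ℕ) : IsKer d 1 l03 := by
  refine isKer_of (![0, 448, 512, -208, -448, -11] : Fin 6 → ℝ) fun P R p => ?_
  unfold lp mp
  simp only [l03, List.map_cons, List.map_nil, List.sum_cons, List.sum_nil,
    Finset.sum_range_succ, Finset.sum_range_zero, qg, Matrix.cons_val]
  rw [mo00, mo01, mo02, mo03, mo04, mo10, mo11, mo12, mo13, mo14, mo20, mo21, mo22, mo23, mo24,
    mo30, mo31, mo32, mo33, mo34, mo40, mo41, mo42, mo43, mo44]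
  push_cast
  ring

theorem k04 (d : ℕ) : IsKer d 1 l04 := by
  refine isKer_of (![416, -1024, -2048, -60, -11, 0] : Fin 6 → ℝ) fun P R p => ?_
  unfold lp mp
  simp only [l04, List.map_cons, List.map_nil, List.sum_cons, List.sum_nil,
    Finset.sum_range_succ, Finset.sum_range_zero, qg, Matrix.cons_val]
  rw [mo00, mo01, mo02, mo03, mo04, mo10, mo11, mo12, mo13, mo14, mo20, mo21, mo22, mo23, mo24,
    mo30, mo31, mo32, mo33, mo34, mo40, mo41, mo42, mo43, mo44]
  push_cast
  ring

theorem k05 (d : ℕ) : IsKer d 0 l05 := by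
  refine isKer_of (![128, 0, 0, 1, 0, 0] : Fin 6 → ℝ) fun P R p => ?_
  unfold lp mp
  simp only [l05, List.map_cons, List.map_nil, List.sum_cons, List.sum_nil,
    Finset.sum_range_succ, Finset.sum_range_zero, qg, Matrix.cons_val]
  rw [mo00, mo01, mo02, mo03, mo04, mo10, mo11, mo12, mo13, mo14, mo20, mo21, mo22, mo23, mo24,
    mo30, mo31, mo32, mo33, mo34, mo40, mo41, mo42, mo43, mo44]
  push_cast
  ring

theorem k06 (d : ℕ) : IsKer d 0 l06 := by
  refine isKer_of (![512, -96, 256, -52, -144, -5] : Fin 6 → ℝ) fun P R p => ?_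
  unfold lp mp
  simp only [l06, List.map_cons, List.map_nil, List.sum_cons, List.sum_nil,
    Finset.sum_range_succ, Finset.sum_range_zero, qg, Matrix.cons_val]
  rw [mo00, mo01, mo02, mo03, mo04, mo10, mo11, mo12, mo13, mo14, mo20, mo21, mo22, mo23, mo24,
    mo30, mo31, mo32, mo33, mo34, mo40, mo41, mo42, mo43, mo44]
  push_cast
  ring

theorem k07 (d : ℕ) : IsKer d 0 l07 := by
  refine isKer_of (![16384, 3584, 6656, 416, 208, 7] : Fin 6 → ℝ) fun P R p => ?_
  unfold lp mp
  simp only [l07, List.map_cons, List.map_nil, List.sum_cons, List.sum_nil,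
    Finset.sum_range_succ, Finset.sum_range_zero, qg, Matrix.cons_val]
  rw [mo00, mo01, mo02, mo03, mo04, mo10, mo11, mo12, mo13, mo14, mo20, mo21, mo22, mo23, mo24,
    mo30, mo31, mo32, mo33, mo34, mo40, mo41, mo42, mo43, mo44]
  push_cast
  ring

theorem k08 (d : ℕ) : IsKer d 2 l08 := by
  refine isKer_of (![2048, 1536, 320, -352, -768, -13] : Fin 6 → ℝ) fun P R p => ?_
  unfold lp mp
  simp only [l08, List.map_cons, List.map_nil, List.sum_cons, List.sum_nil,
    Finset.sum_range_succ, Finset.sum_range_zero, qg, Matrix.cons_val]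
  rw [mo00, mo01, mo02, mo03, mo04, mo10, mo11, mo12, mo13, mo14, mo20, mo21, mo22, mo23, mo24,
    mo30, mo31, mo32, mo33, mo34, mo40, mo41, mo42, mo43, mo44]
  push_cast
  ring

theorem k09 (d : ℕ) : IsKer d 1 l09 := by
  refine isKer_of (![1024, -30, -80, 3, 0, 0] : Fin 6 → ℝ) fun P R p => ?_
  unfold lp mp
  simp only [l09, List.map_cons, List.map_nil, List.sum_cons, List.sum_nil,
    Finset.sum_range_succ, Finset.sum_range_zero, qg, Matrix.cons_val]
  rw [mo00, mo01, mo02, mo03, mo04, mo10, mo11, mo12, mo13, mo14, mo20, mo21, mo22, mo23, mo24,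
    mo30, mo31, mo32, mo33, mo34, mo40, mo41, mo42, mo43, mo44]
  push_cast
  ring

theorem k10 (d : ℕ) : IsKer d 3 l10 := by
  refine isKer_of (![224, -120, -256, -5, 0, 0] : Fin 6 → ℝ) fun P R p => ?_
  unfold lp mp
  simp only [l10, List.map_cons, List.map_nil, List.sum_cons, List.sum_nil,
    Finset.sum_range_succ, Finset.sum_range_zero, qg, Matrix.cons_val]
  rw [mo00, mo01, mo02, mo03, mo04, mo10, mo11, mo12, mo13, mo14, mo20, mo21, mo22, mo23, mo24,
    mo30, mo31, mo32, mo33, mo34, mo40, mo41, mo42, mo43, mo44]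
  push_cast
  ring

theorem k11 (d : ℕ) : IsKer d 0 l11 := by
  refine isKer_of (![7168, 9216, 32768, 896, 512, -15] : Fin 6 → ℝ) fun P R p => ?_
  unfold lp mp
  simp only [l11, List.map_cons, List.map_nil, List.sum_cons, List.sum_nil,
    Finset.sum_range_succ, Finset.sum_range_zero, qg, Matrix.cons_val]
  rw [mo00, mo01, mo02, mo03, mo04, mo10, mo11, mo12, mo13, mo14, mo20, mo21, mo22, mo23, mo24,
    mo30, mo31, mo32, mo33, mo34, mo40, mo41, mo42, mo43, mo44]
  push_cast
  ring

theorem k12 (d : ℕ) : IsKer d 0 l12 := by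
  refine isKer_of (![65536, -11264, -30720, -480, 0, 13] : Fin 6 → ℝ) fun P R p => ?_
  unfold lp mp
  simp only [l12, List.map_cons, List.map_nil, List.sum_cons, List.sum_nil,
    Finset.sum_range_succ, Finset.sum_range_zero, qg, Matrix.cons_val]
  rw [mo00, mo01, mo02, mo03, mo04, mo10, mo11, mo12, mo13, mo14, mo20, mo21, mo22, mo23, mo24,
    mo30, mo31, mo32, mo33, mo34, mo40, mo41, mo42, mo43, mo44]
  push_cast
  ring

theorem k13 (d : ℕ) : IsKer d 2 l13 := by
  refine isKer_of (![0, 208, 512, 13, 0, 0] : Fin 6 → ℝ) fun P R p => ?_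
  unfold lp mp
  simp only [l13, List.map_cons, List.map_nil, List.sum_cons, List.sum_nil,
    Finset.sum_range_succ, Finset.sum_range_zero, qg, Matrix.cons_val]
  rw [mo00, mo01, mo02, mo03, mo04, mo10, mo11, mo12, mo13, mo14, mo20, mo21, mo22, mo23, mo24,
    mo30, mo31, mo32, mo33, mo34, mo40, mo41, mo42, mo43, mo44]
  push_cast
  ring

theorem k14 (d : ℕ) : IsKer d 2 l14 := by
  refine isKer_of (![1024, -160, -352, -5, 0, 0] : Fin 6 → ℝ) fun P R p => ?_
  unfold lp mp
  simp only [l14, List.map_cons, List.map_nil, List.sum_cons, List.sum_nil,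
    Finset.sum_range_succ, Finset.sum_range_zero, qg, Matrix.cons_val]
  rw [mo00, mo01, mo02, mo03, mo04, mo10, mo11, mo12, mo13, mo14, mo20, mo21, mo22, mo23, mo24,
    mo30, mo31, mo32, mo33, mo34, mo40, mo41, mo42, mo43, mo44]
  push_cast
  ring

theorem k15 (d : ℕ) : IsKer d 1 l15 := by
  refine isKer_of (![320, -320, 512, -88, -256, -9] : Fin 6 → ℝ) fun P R p => ?_
  unfold lp mp
  simp only [l15, List.map_cons, List.map_nil, List.sum_cons, List.sum_nil,
    Finset.sum_range_succ, Finset.sum_range_zero, qg, Matrix.cons_val]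
  rw [mo00, mo01, mo02, mo03, mo04, mo10, mo11, mo12, mo13, mo14, mo20, mo21, mo22, mo23, mo24,
    mo30, mo31, mo32, mo33, mo34, mo40, mo41, mo42, mo43, mo44]
  push_cast
  ring

theorem k16 (d : ℕ) : IsKer d 1 l16 := by
  refine isKer_of (![384, 240, 512, 15, 0, 0] : Fin 6 → ℝ) fun P R p => ?_
  unfold lp mp
  simp only [l16, List.map_cons, List.map_nil, List.sum_cons, List.sum_nil,
    Finset.sum_range_succ, Finset.sum_range_zero, qg, Matrix.cons_val]
  rw [mo00, mo01, mo02, mo03, mo04, mo10, mo11, mo12, mo13, mo14, mo20, mo21, mo22, mo23, mo24,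
    mo30, mo31, mo32, mo33, mo34, mo40, mo41, mo42, mo43, mo44]
  push_cast
  ring

theorem k17 (d : ℕ) : IsKer d 1 l17 := by
  refine isKer_of (![1024, 224, 512, 13, 0, 0] : Fin 6 → ℝ) fun P R p => ?_
  unfold lp mp
  simp only [l17, List.map_cons, List.map_nil, List.sum_cons, List.sum_nil,
    Finset.sum_range_succ, Finset.sum_range_zero, qg, Matrix.cons_val]
  rw [mo00, mo01, mo02, mo03, mo04, mo10, mo11, mo12, mo13, mo14, mo20, mo21, mo22, mo23, mo24,
    mo30, mo31, mo32, mo33, mo34, mo40, mo41, mo42, mo43, mo44]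
  push_cast
  ring

theorem k18 (d : ℕ) : IsKer d 1 l18 := by
  refine isKer_of (![4096, -72, -224, 8, -7, 0] : Fin 6 → ℝ) fun P R p => ?_
  unfold lp mp
  simp only [l18, List.map_cons, List.map_nil, List.sum_cons, List.sum_nil,
    Finset.sum_range_succ, Finset.sum_range_zero, qg, Matrix.cons_val]
  rw [mo00, mo01, mo02, mo03, mo04, mo10, mo11, mo12, mo13, mo14, mo20, mo21, mo22, mo23, mo24,
    mo30, mo31, mo32, mo33, mo34, mo40, mo41, mo42, mo43, mo44]
  push_cast
  ring

theorem k19 (d : ℕ) : IsKer d 3 l19 := by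
  refine isKer_of (![144, 120, 256, 3, 0, 0] : Fin 6 → ℝ) fun P R p => ?_
  unfold lp mp
  simp only [l19, List.map_cons, List.map_nil, List.sum_cons, List.sum_nil,
    Finset.sum_range_succ, Finset.sum_range_zero, qg, Matrix.cons_val]
  rw [mo00, mo01, mo02, mo03, mo04, mo10, mo11, mo12, mo13, mo14, mo20, mo21, mo22, mo23, mo24,
    mo30, mo31, mo32, mo33, mo34, mo40, mo41, mo42, mo43, mo44]
  push_cast
  ring

end Pool.Agent.H48.RF
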