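import Pool.Agent.H48.RF.Mo

/-!
The pair kernel as an explicit sum.
-/

set_option autoImplicit false

open MeasureTheory Filter Topology Metric Set
open scoped RealInnerProductSpace ENNReal

namespace Pool.Agent.H48.RF

open Pool.Agent.RZ Pool.Agent.H1.LD Pool.Agent.H48.R7 Pool.Agent.H48.RG

variable {d : ℕ}

theorem mp_eq (κ : ℝ) (α : Fin 6 → ℝ) (P R p : ℝ)
    {f g : ℕ → ℝ} (hf : ∀ i < 5, qg κ α (2 * (P + p)) i = f i)
    (hg : ∀ i < 5, qg κ α (2 * (R + p)) i = g i) :
    mp κ α P R p = ∑ i ∈ Finset.range 5, ∑ j ∈ Finset.range 5,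
      f i * g j * mo P R (P + p) (R + p) p i j := by
  unfold mp
  refine Finset.sum_congr rfl fun i hi => Finset.sum_congr rfl fun j hj => ?_
  rw [hf i (Finset.mem_range.1 hi), hg j (Finset.mem_range.1 hj)]

end Pool.Agent.H48.RF
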