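import Pool.Agent.H48.RF.Ok

/-!
The atoms of the certificate in dimension 13 are admissible.
-/

set_option autoImplicit false

open MeasureTheory Filter Topology Metric Set
open scoped RealInnerProductSpace ENNReal

namespace Pool.Agent.H48.RF

open Pool.Agent.RZ Pool.Agent.H1.LD Pool.Agent.H48.R7 Pool.Agent.H48.RG

theorem kL1 (d : ℕ) : IsKer d 1 L1 := by
  refine isKer_of (![1, 0, 0, 0, 0, 0] : Fin 6 → ℝ) fun P R p => ?_
  unfold lp mp
  simp only [L1, List.map_cons, List.map_nil, List.sum_cons, List.sum_nil,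
    Finset.sum_range_succ, Finset.sum_range_zero, qg, Matrix.cons_val]
  rw [mo00, mo01, mo02, mo03, mo04, mo10, mo11, mo12, mo13, mo14, mo20, mo21, mo22, mo23, mo24,
    mo30, mo31, mo32, mo33, mo34, mo40, mo41, mo42, mo43, mo44]
  push_cast
  ring

theorem c13_pos : 0 < c13 := by
  norm_num [c13, D13]

theorem okA (d : ℕ) : OK d 13 (A1 c13 6) :=
  ⟨c13_pos.le, by simp [A1], by simp [A1], by simp only [A1]; decide, kL1 d⟩

theorem oa00 (d : ℕ) : OK d 13 a00 :=
  ⟨by norm_num [a00, D13], by decide, by decide, by decide, k00 d⟩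

theorem oa01 (d : ℕ) : OK d 13 a01 :=
  ⟨by norm_num [a01, D13], by decide, by decide, by decide, k01 d⟩

theorem oa02 (d : ℕ) : OK d 13 a02 :=
  ⟨by norm_num [a02, D13], by decide, by decide, by decide, k02 d⟩

theorem oa03 (d : ℕ) : OK d 13 a03 :=
  ⟨by norm_num [a03, D13], by decide, by decide, by decide, k03 d⟩

theorem oa04 (d : ℕ) : OK d 13 a04 :=
  ⟨by norm_num [a04, D13], by decide, by decide, by decide, k04 d⟩

theorem oa05 (d : ℕ) : OK d 13 a05 :=
  ⟨by norm_num [a05, D13], by decide, by decide, by decide, k05 d⟩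

theorem oa06 (d : ℕ) : OK d 13 a06 :=
  ⟨by norm_num [a06, D13], by decide, by decide, by decide, k06 d⟩

theorem oa07 (d : ℕ) : OK d 13 a07 :=
  ⟨by norm_num [a07, D13], by decide, by decide, by decide, k07 d⟩

theorem oa08 (d : ℕ) : OK d 13 a08 :=
  ⟨by norm_num [a08, D13], by decide, by decide, by decide, k08 d⟩

theorem oa09 (d : ℕ) : OK d 13 a09 :=
  ⟨by norm_num [a09, D13], by decide, by decide, by decide, k09 d⟩

theorem oa10 (d : ℕ) : OK d 13 a10 :=
  ⟨by norm_num [a10, D13], by decide, by decide, by decide, k10 d⟩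

theorem oa11 (d : ℕ) : OK d 13 a11 :=
  ⟨by norm_num [a11, D13], by decide, by decide, by decide, k11 d⟩

theorem oa12 (d : ℕ) : OK d 13 a12 :=
  ⟨by norm_num [a12, D13], by decide, by decide, by decide, k12 d⟩

theorem oa13 (d : ℕ) : OK d 13 a13 :=
  ⟨by norm_num [a13, D13], by decide, by decide, by decide, k13 d⟩

theorem oa14 (d : ℕ) : OK d 13 a14 :=
  ⟨by norm_num [a14, D13], by decide, by decide, by decide, k14 d⟩

theorem oa15 (d : ℕ) : OK d 13 a15 :=
  ⟨by norm_num [a15, D13], by decide, by decide, by decide, k15 d⟩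

theorem oa16 (d : ℕ) : OK d 13 a16 :=
  ⟨by norm_num [a16, D13], by decide, by decide, by decide, k16 d⟩

theorem oa17 (d : ℕ) : OK d 13 a17 :=
  ⟨by norm_num [a17, D13], by decide, by decide, by decide, k17 d⟩

theorem oa18 (d : ℕ) : OK d 13 a18 :=
  ⟨by norm_num [a18, D13], by decide, by decide, by decide, k18 d⟩

theorem oa19 (d : ℕ) : OK d 13 a19 :=
  ⟨by norm_num [a19, D13], by decide, by decide, by decide, k19 d⟩

theorem ok13 (d : ℕ) : ∀ A ∈ A1 c13 6 :: T13, OK d 13 A := by
  intro A hA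
  simp only [T13, List.mem_cons, List.not_mem_nil, or_false] at hA
  rcases hA with rfl | rfl | rfl | rfl | rfl | rfl | rfl | rfl | rfl | rfl | rfl | rfl | rfl | rfl | rfl | rfl | rfl | rfl | rfl | rfl | rfl
  · exact okA d
  · exact oa00 d
  · exact oa01 d
  · exact oa02 d
  · exact oa03 d
  · exact oa04 d
  · exact oa05 d
  · exact oa06 d
  · exact oa07 d
  · exact oa08 d
  · exact oa09 d
  · exact oa10 d
  · exact oa11 d
  · exact oa12 d
  · exact oa13 d
  · exact oa14 d
  · exact oa15 d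
  · exact oa16 d
  · exact oa17 d
  · exact oa18 d
  · exact oa19 d

end Pool.Agent.H48.RF
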