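import Pool.Agent.H48.RF.Ex

/-!
Kernel checks of the expansions.
-/

set_option autoImplicit false
set_option maxRecDepth 100000

namespace Pool.Agent.H48.RF

open Pool.Agent.H48.RG Pool.Agent.H48.RE

theorem s00 : sp 10 e00 p00 = true := by
  decide +kernel

theorem s01 : sp 10 e01 p01 = true := by
  decide +kernel

theorem s02 : sp 10 e02 p02 = true := by
  decide +kernel

theorem s03 : sp 10 e03 p03 = true := by
  decide +kernel

theorem s04 : sp 10 e04 p04 = true := by
  decide +kernel

theorem s05 : sp 10 e05 p05 = true := by
  decide +kernel

theorem s06 : sp 10 e06 p06 = true := by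
  decide +kernel

end Pool.Agent.H48.RF
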