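import Pool.Agent.H48.RE.Pol2

/-!
Verification of the identity atom by atom.
-/

set_option autoImplicit false

open MeasureTheory Filter Topology Metric Set
open scoped RealInnerProductSpace ENNReal

namespace Pool.Agent.H48.RF

open Pool.Agent.RZ Pool.Agent.H1.LD Pool.Agent.H48.R7 Pool.Agent.H48.RG Pool.Agent.H48.RE

variable {d : ℕ}

/-- the polynomial of one atom, summed over the rotations, is `P` -/
def sp (M : ℕ) (t : Dt) (P : List (List ℤ)) : Bool :=
  mzr (mad (mad (mad (tot M vA vB vC [(1, t.2)]) (tot M vA vC vB [(1, t.2)]))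
    (tot M vC vB vA [(1, t.2)])) (mmu [[-1]] P))

/-- the same for a list of atoms -/
inductive SpA (M : ℕ) : List Dt → List (List (List ℤ)) → Prop
  | nil : SpA M [] []
  | cons {t : Dt} {P : List (List ℤ)} {T : List Dt} {Ps : List (List (List ℤ))} :
      sp M t P = true → SpA M T Ps → SpA M (t :: T) (P :: Ps)

/-- the weighted sum of the polynomials -/
def sm : List Dt → List (List (List ℤ)) → List (List ℤ)
  | t :: T, P :: Ps => mad (mmu [[t.1]] P) (sm T Ps)
  | _, _ => []

/-- the final check -/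
def fn (M r : ℕ) (K : ℤ) (T : List Dt) (Ps : List (List (List ℤ))) : Bool :=
  mzr (mad (sm T Ps) (mad (mad (rt M r K vA vB vC) (rt M r K vA vC vB)) (rt M r K vC vB vA)))

private theorem RFSp_A (x y : ℝ) : mev x y vA = x := by simp [vA, mev, lev]
private theorem RFSp_B (x y : ℝ) : mev x y vB = y := by simp [vB, mev, lev]
private theorem RFSp_C (x y : ℝ) : mev x y vC = 1 := by simp [vC, mev, lev]

theorem sp_one {M : ℕ} {t : Dt} {P : List (List ℤ)} (h : sp M t P = true) (x y : ℝ) :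
    rtot M x y 1 [(1, t.2)] + rtot M x 1 y [(1, t.2)] + rtot M 1 y x [(1, t.2)] = mev x y P := by
  have h1 := mev_zero x y _ h
  rw [mev_mad, mev_mad, mev_mad, mev_mmu, mev_tot, mev_tot, mev_tot, RFSp_A, RFSp_B, RFSp_C] at h1
  have e : mev x y [[-1]] = -1 := by simp [mev, lev]
  rw [e] at h1
  linear_combination h1

theorem rtot_cons (M : ℕ) (A B C : ℝ) (t : Dt) (T : List Dt) :
    rtot M A B C (t :: T) = t.1 * rtot M A B C [(1, t.2)] + rtot M A B C T := by
  simp only [rtot]
  push_cast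
  ring

theorem sm_ev {M : ℕ} {T : List Dt} {Ps : List (List (List ℤ))} (h : SpA M T Ps) (x y : ℝ) :
    rtot M x y 1 T + rtot M x 1 y T + rtot M 1 y x T = mev x y (sm T Ps) := by
  induction h with
  | nil => simp [rtot, sm, mev]
  | @cons t P T Ps h1 _ ih =>
    have h2 := sp_one h1 x y
    rw [rtot_cons, rtot_cons M x 1 y, rtot_cons M 1 y x, sm, mev_mad, mev_mmu, ← ih, ← h2]
    have e : mev x y [[t.1]] = t.1 := by simp [mev, lev]
    rw [e]
    ring

theorem sp_ev {M r : ℕ} {K : ℤ} {T : List Dt} {Ps : List (List (List ℤ))} (h : SpA M T Ps)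
    (hf : fn M r K T Ps = true) (x y : ℝ) :
    rtot M x y 1 T + rtot M x 1 y T + rtot M 1 y x T =
      K * ((x + y - 1) * (x ^ r * (y ^ r * 1 ^ M)) + (x + 1 - y) * (x ^ r * (1 ^ r * y ^ M)) +
        (1 + y - x) * (1 ^ r * (y ^ r * x ^ M))) := by
  have h1 := mev_zero x y _ hf
  have e : ∀ P Q R : List (List ℤ), mev x y (mad P (mad Q (mmu [[-1]] R))) =
      mev x y P + mev x y Q - mev x y R := by
    intro P Q R
    rw [mev_mad, mev_mad, mev_mmu]
    simp [mev, lev]
    ring
  have er : ∀ P Q R : List (List ℤ), mev x y (rt M r K P Q R) =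
      -K * ((mev x y P + mev x y Q - mev x y R) * (mev x y P ^ r * (mev x y Q ^ r *
        mev x y R ^ M))) := by
    intro P Q R
    unfold rt
    rw [mev_mmu, mev_mmu, mev_mmu, mev_mmu, mev_mpw, mev_mpw, mev_mpw, e]
    simp [mev, lev]
  rw [mev_mad, mev_mad, mev_mad, er, er, er, RFSp_A, RFSp_B, RFSp_C, ← sm_ev h] at h1
  linear_combination h1

/-- the identity from the checks -/
theorem ident_ev {M N r E : ℕ} (hM : N + 1 ≤ 2 * M) (hN : Even (N + 1)) {T : List At}
    (h : ∀ t ∈ T, Fit M t) {K : ℤ} (hK : K ≠ 0) {Ds : List Dt} (h1 : okT M (2 * K) T Ds = true)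
    (h2 : hmT M E Ds = true) (hr : r = M - (N + 1) / 2) (hE : E = 2 * r + M + 1)
    (h3 : ∀ x y : ℝ, rtot M x y 1 Ds + rtot M x 1 y Ds + rtot M 1 y x Ds =
      K * ((x + y - 1) * (x ^ r * (y ^ r * 1 ^ M)) + (x + 1 - y) * (x ^ r * (1 ^ r * y ^ M)) +
        (1 + y - x) * (1 ^ r * (y ^ r * x ^ M)))) {a b : X d} (ha : a ≠ 0) (hb : b ≠ 0)
    (hab : a ≠ b) :
    WN T a b + WN T (-a) (b - a) + WN T (a - b) (-b) =
      LN N a b + LN N (-a) (b - a) + LN N (a - b) (-b) := by
  refine ident_of hM hN h ?_ ha hb hab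
  intro A B C hC
  have g := h3 (A / C) (B / C)
  have k1 := rtot_hom (A := A / C) (B := B / C) (C := 1) (l := C) h2
  have k2 := rtot_hom (A := A / C) (B := 1) (C := B / C) (l := C) h2
  have k3 := rtot_hom (A := 1) (B := B / C) (C := A / C) (l := C) h2
  rw [mul_div_cancel₀ A hC, mul_div_cancel₀ B hC, mul_one, okT_rtot h1] at k1 k2 k3
  have hK' : ((2 * K : ℤ) : ℝ) ≠ 0 := by
    have : (2 * K : ℤ) ≠ 0 := mul_ne_zero two_ne_zero hK
    exact_mod_cast this
  apply mul_left_cancel₀ hK'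
  rw [mul_add, mul_add, k1, k2, k3, ← mul_add, ← mul_add, g, ← hr]
  have eA : A = C * (A / C) := (mul_div_cancel₀ A hC).symm
  have eB : B = C * (B / C) := (mul_div_cancel₀ B hC).symm
  generalize A / C = x at *
  generalize B / C = y at *
  rw [eA, eB, hE]
  push_cast
  rw [mul_pow, mul_pow, mul_pow, mul_pow, one_pow, one_pow]
  ring

end Pool.Agent.H48.RF
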